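import Pool.Agent.UMG.StmtsB

set_option autoImplicit false

/-!
# Squad UMG, row BUR
-/

namespace Pool.Agent.UMG.B.H10

open Finset Pool.Agent.UMG Pool.Agent.UMG.B

theorem gs_one {V H : Type} [Finite V] [Finite H] (ν : H → V) :
    GS (fun _ _ _ _ => 1) ν = Nat.card (Gam ν) := by
  unfold GS
  classical
  have := Fintype.ofFinite (Gam ν)
  rw [finsum_eq_sum_of_fintype, Nat.card_eq_fintype_card]
  simp

theorem inv_one : Inv (fun _ _ _ _ => 1) := fun _ _ _ _ _ _ _ _ _ => rfl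

theorem bur (hgsi : GsiStmt) (hgsm : GsmStmt) (hstm : StmStmt) (hgam : GamStmt) (hgcg : GcgStmt)
    (hrea : ReaStmt) (hdgf : DgfStmt) (horb : OrbStmt) (hivb : IvbStmt) (hptf : PtfStmt) :
    BurStmt := by
  intro d hd B hB
  obtain ⟨hsym, hdeg⟩ := hB
  obtain ⟨H, hH, ν, m, h1, h2, h3⟩ := hrea d.length B hsym
  have hfib : ∀ v, Nat.card {h // ν h = v} = deg B v := hdgf d.length B H ν m h3
  have hmi : MI ν (nus d) := hstm d.length H ν d (by
    rw [← hdeg]
    exact Multiset.map_congr rfl (fun v _ => hfib v))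
  have e1 : gsum d (fun c => Nat.card {x : (j : Fin d.sum) → Fin (F (j + 1) (cnt c (j + 1))) //
      Iso (gr d.length (edg d.sum c (ext x))) B}) =
      gsum d (fun c => PhB B (Vc c) (Hc c) (nuc c) (gc c)) :=
    hgcg ℕ d hd _ _ (fun c hc => (hptf _ _ B c hc).symm)
  rw [e1, ← hgsm (PhB B) (hivb _ B) d hd, ← hgsi (PhB B) (hivb _ B) _ _ _ _ ν (nus d) hmi,
    horb d.length B H ν m h1 h2 h3, ← gs_one,
    hgsi (fun _ _ _ _ => 1) inv_one _ _ _ _ ν (nus d) hmi,
    hgsm (fun _ _ _ _ => 1) inv_one d hd]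
  exact hgam d hd

end Pool.Agent.UMG.B.H10
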