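import Pool.Agent.UMG.StmtsB

set_option autoImplicit false

/-!
# Squad UMG, row MTR
-/

namespace Pool.Agent.UMG.B.H10

open Finset Pool.Agent.UMG Pool.Agent.UMG.B

/-- transport of matchings -/
def mtEquiv {H H' : Type} {g : Equiv.Perm H} {g' : Equiv.Perm H'} (f : H ≃ H')
    (h2 : ∀ h, f (g h) = g' (f h)) : Mt g ≃ Mt g' where
  toFun m := ⟨fun y => f (m.1 (f.symm y)), m.2.conj f h2⟩
  invFun m := ⟨fun y => f.symm (m.1 (f y)), by
    have h2' : ∀ h, f.symm (g' h) = g (f.symm h) := by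
      intro x
      rw [Equiv.symm_apply_eq, h2, Equiv.apply_symm_apply]
    exact m.2.conj f.symm h2'⟩
  left_inv m := by
    refine Subtype.ext (funext fun x => ?_)
    simp
  right_inv m := by
    refine Subtype.ext (funext fun x => ?_)
    simp

theorem eqD_conj {H H' : Type} {ν : H → ℕ} {g : Equiv.Perm H} {ν' : H' → ℕ}
    {g' : Equiv.Perm H'} (f : H ≃ H') (h1 : ∀ h, ν' (f h) = ν h)
    (h2 : ∀ h, f (g h) = g' (f h)) (P : (H → H) → Prop) (P' : (H' → H') → Prop)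
    (hP : ∀ m : H → H, P m ↔ P' (fun y => f (m (f.symm y)))) :
    EqD (fun m : {m : Mt g // P m.1} => QQ ν m.1.1)
      (fun m : {m : Mt g' // P' m.1} => QQ ν' m.1.1) := by
  refine ⟨(mtEquiv f h2).subtypeEquiv (fun m => hP m.1), fun m => ?_⟩
  funext v w
  exact QQ_equiv f ν ν' m.1.1 h1 v w

theorem mtr (hslf : SlfStmt) (hpai : PaiStmt) (hpik : PikStmt) : MtrStmt := by
  intro b L hb hL
  obtain ⟨hp1, hp2⟩ := hpik
  choose f hf1 hf2 hf3 using hp2 L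
  have hsz : ∀ p : Fin L.length, bsz (L.get p) = bsz b := fun p => hL _ (List.get_mem L p)
  let E0 : Fin L.length × Fin (bsz b) → HB L :=
    fun x => (f x.1).symm (Sum.inl ⟨x.2, (hsz x.1).symm ▸ x.2.2⟩)
  have hloc : ∀ x, loc L (E0 x) = ((x.1 : ℕ), (x.2 : ℕ)) := fun x => hf3 x.1 _
  have hbij : Function.Bijective E0 := by
    constructor
    · intro x y hxy
      have h := congrArg (loc L) hxy
      rw [hloc, hloc] at h
      exact Prod.ext (Fin.ext (congrArg Prod.fst h)) (Fin.ext (congrArg Prod.snd h))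
    · intro h
      obtain ⟨hp, hr⟩ := ((hp1 L).2 (loc L h).1 (loc L h).2).1 ⟨h, rfl⟩
      rw [hsz] at hr
      exact ⟨(⟨(loc L h).1, hp⟩, ⟨(loc L h).2, hr⟩), (hp1 L).1 (hloc _)⟩
  let E : Fin L.length × Fin (bsz b) ≃ HB L := Equiv.ofBijective E0 hbij
  let G : Equiv.Perm (Fin (bsz b) ⊕ HB L) := Equiv.sumCongr (finRotate (bsz b)) (gB L)
  let q : Mt G → ℕ → ℕ → ℕ := fun m => QQ (Sum.elim (nu1 b) (nuB L)) m.1
  let P : Mt G → Prop := fun m => ∃ s, m.1 (Sum.inl ⟨0, hb⟩) = Sum.inl s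
  have hφ : ∀ m : {m : Mt G // ¬ P m}, ∃ x, m.1.1 (Sum.inl ⟨0, hb⟩) = Sum.inr (E x) := by
    rintro ⟨m, hm⟩
    rcases h : m.1 (Sum.inl ⟨0, hb⟩) with s | h0
    · exact absurd ⟨s, h⟩ hm
    · exact ⟨E.symm h0, by rw [Equiv.apply_symm_apply]⟩
  choose φ hφ using hφ
  have s1 : EqD q (Sum.elim (fun m : {m : Mt G // P m} => q m.1)
      (fun m : {m : Mt G // ¬ P m} => q m.1)) := by
    classical
    refine ⟨(Equiv.sumCompl P).symm, fun m => ?_⟩
    by_cases hm : P m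
    · rw [Equiv.sumCompl_symm_apply_of_pos hm]
      rfl
    · rw [Equiv.sumCompl_symm_apply_of_neg hm]
      rfl
  have s2 : EqD (fun m : {m : Mt G // ¬ P m} => q m.1)
      (fun z : (Σ x : Fin L.length × Fin (bsz b),
        {m : Mt G // m.1 (Sum.inl ⟨0, hb⟩) = Sum.inr (E x)}) => q z.2.1) := by
    have hneg : ∀ (x : Fin L.length × Fin (bsz b)) (m : Mt G),
        m.1 (Sum.inl ⟨0, hb⟩) = Sum.inr (E x) → ¬ P m := by
      rintro x m hm ⟨s, hs⟩
      rw [hm] at hs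
      exact absurd hs (by simp)
    refine ⟨⟨fun m => ⟨φ m, m.1, hφ m⟩, fun z => ⟨z.2.1, hneg z.1 z.2.1 z.2.2⟩, ?_, ?_⟩,
      fun m => rfl⟩
    · intro m
      rfl
    · rintro ⟨x, m, hm⟩
      have hx : φ ⟨m, hneg x m hm⟩ = x :=
        E.injective (Sum.inr_injective ((hφ ⟨m, hneg x m hm⟩).symm.trans hm))
      exact Sigma.subtype_ext hx rfl
  have s3 : ∀ x : Fin L.length × Fin (bsz b),
      EqD (fun m : {m : Mt G // m.1 (Sum.inl ⟨0, hb⟩) = Sum.inr (E x)} => q m.1)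
        (fun m : Mt (gB (L.eraseIdx x.1)) =>
          Qc (pairE (bsz b) x.2 b (L.get x.1)) + QQ (nuB (L.eraseIdx x.1)) m.1) := by
    intro x
    have hr : (x.2 : ℕ) < bsz (L.get x.1) := (hsz x.1).symm ▸ x.2.2
    refine EqD.trans ?_ (hpai b (L.get x.1) hb x.2 hr (hsz x.1) (HB (L.eraseIdx x.1))
      (gB (L.eraseIdx x.1)) (nuB (L.eraseIdx x.1)))
    refine eqD_conj (g := G) (ν := Sum.elim (nu1 b) (nuB L))
      (Equiv.sumCongr (Equiv.refl (Fin (bsz b))) (f x.1)) ?_ ?_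
      (fun m : Fin (bsz b) ⊕ HB L → Fin (bsz b) ⊕ HB L => m (Sum.inl ⟨0, hb⟩) = Sum.inr (E x))
      (fun m : Fin (bsz b) ⊕ (Fin (bsz (L.get x.1)) ⊕ HB (L.eraseIdx x.1)) →
        Fin (bsz b) ⊕ (Fin (bsz (L.get x.1)) ⊕ HB (L.eraseIdx x.1)) =>
          m (Sum.inl ⟨0, hb⟩) = Sum.inr (Sum.inl ⟨x.2, hr⟩)) ?_
    · rintro (t | h)
      · rfl
      · exact hf1 x.1 h
    · rintro (t | h)
      · rfl
      · exact congrArg Sum.inr (hf2 x.1 h)
    · intro m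
      have hE : (f x.1) (E x) = Sum.inl ⟨x.2, hr⟩ := (f x.1).apply_symm_apply _
      have h0 : (Equiv.sumCongr (Equiv.refl (Fin (bsz b))) (f x.1)).symm (Sum.inl ⟨0, hb⟩) =
          Sum.inl ⟨0, hb⟩ := rfl
      have h1 : (Equiv.sumCongr (Equiv.refl (Fin (bsz b))) (f x.1)) (Sum.inr (E x)) =
          Sum.inr (Sum.inl ⟨x.2, hr⟩) := congrArg Sum.inr hE
      simp only [h0]
      constructor
      · intro h
        rw [h]
        exact h1
      · intro h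
        rw [← h1] at h
        exact (Equiv.injective _) h
  have s4 : EqD (fun z : (Σ x : Fin L.length × Fin (bsz b), Mt (gB (L.eraseIdx x.1))) =>
        Qc (pairE (bsz b) z.1.2 b (L.get z.1.1)) + QQ (nuB (L.eraseIdx z.1.1)) z.2.1)
      (fun z : (Σ p : Fin L.length, Fin (bsz b) × Mt (gB (L.eraseIdx p))) =>
        Qc (pairE (bsz b) z.2.1 b (L.get z.1)) + QQ (nuB (L.eraseIdx z.1)) z.2.2.1) :=
    ⟨⟨fun z => ⟨z.1.1, z.1.2, z.2⟩, fun z => ⟨(z.1, z.2.1), z.2.2⟩, fun _ => rfl, fun _ => rfl⟩,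
      fun _ => rfl⟩
  exact s1.trans ((hslf b hb (HB L) (gB L) (nuB L)).sumElim (s2.trans ((EqD.sigma s3).trans s4)))

end Pool.Agent.UMG.B.H10
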