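import Pool.Agent.Helper10_UMG.BUR
import Pool.Agent.Helper10_UMG.MTR
import Pool.Agent.Helper27_UMG.PCS
import Pool.Agent.Helper8_UMG.PCE
import Pool.Agent.Helper77_UMG.PCF
import Pool.Agent.Helper17_UMG.CSM
import Pool.Agent.Helper97_UMG.CYR
import Pool.Agent.Helper33_UMG.WSM
import Pool.Agent.Helper19_UMG.GWS
import Pool.Agent.Helper37_UMG.GSP
import Pool.Agent.Helper37_UMG.GSI
import Pool.Agent.Helper81_UMG.STA
import Pool.Agent.Helper21_UMG.BLK
import Pool.Agent.Helper95_UMG.GSM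
import Pool.Agent.Helper34_UMG.STM
import Pool.Agent.Helper80_UMG.GAM
import Pool.Agent.Helper45_UMG.GCG
import Pool.Agent.Helper19_UMG.TRA
import Pool.Agent.Helper3_UMG.REA
import Pool.Agent.Helper77_UMG.DGF
import Pool.Agent.Helper66_UMG.BRN
import Pool.Agent.Helper26_UMG.ORB
import Pool.Agent.Helper69_UMG.IVB
import Pool.Agent.Helper4_UMG.SLM
import Pool.Agent.Helper16_UMG.PAM
import Pool.Agent.Helper88_UMG.SLC
import Pool.Agent.Helper13_UMG.PAC
import Pool.Agent.Helper47_UMG.SLF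
import Pool.Agent.Helper98_UMG.PAI
import Pool.Agent.Helper89_UMG.PIK
import Pool.Agent.Helper67_UMG.MTX
import Pool.Agent.Helper2_UMG.MTS
import Pool.Agent.Helper15_UMG.SPM
import Pool.Agent.Helper24_UMG.PER
import Pool.Agent.Helper7_UMG.PRM
import Pool.Agent.Helper50_UMG.EDG
import Pool.Agent.Helper25_UMG.TRB
import Pool.Agent.Helper64_UMG.PTF

set_option autoImplicit false

/-!
# Squad UMG, block B: the Burnside identity without hypotheses
-/

namespace Pool.Agent.UMG.B.H10

open Finset Pool.Agent.UMG Pool.Agent.UMG.B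

theorem pcfF : PcfStmt := H77.pcf H27.pcs H8.pce

theorem csmF : CsmStmt := H17.csm pcfF

theorem wsmF : WsmStmt := H33.wsm pcfF csmF H97.cyr

theorem gsmF : GsmStmt := H95.gsm wsmF H19.gws H37.gsp H37.gsi H81.sta H21.blk

theorem orbF : OrbStmt := H26.orb H19.tra H66.brn

theorem slfF : SlfStmt := H47.slf H4.slm H88.slc

theorem paiF : PaiStmt := H98.pai H16.pam H13.pac

theorem mtrF : MtrStmt := mtr slfF paiF H89.pik

theorem mtsF : MtsStmt := H2.mts mtrF H67.mtx

theorem edgF : EdgStmt := H50.edg mtsF H15.spm H24.per H7.prm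

theorem ptfF : PtfStmt := H64.ptf edgF H25.trb

/-- **The Burnside identity** -/
theorem burF : BurStmt :=
  bur H37.gsi gsmF H34.stm H80.gam H45.gcg H3.rea H77.dgf orbF H69.ivb ptfF

theorem gamF : GamStmt := H80.gam

theorem gcgF : GcgStmt := H45.gcg

end Pool.Agent.UMG.B.H10
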