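import Pool.Agent.UMG.CStmts

set_option autoImplicit false

/-!
# Squad UMG, row MTL
-/

namespace Pool.Agent.UMG.C.H10

open Finset Pool.Agent.UMG Pool.Agent.UMG.C

theorem sM_shift (j : ℕ) (s : List ℕ × ℕ) (t : ℕ) : sM j s (t + 1) = sM j (stM j s) t := by
  induction t with
  | zero => rfl
  | succ t ih =>
    show stM j (sM j s (t + 1)) = stM j (sM j (stM j s) t)
    rw [ih]

theorem sM_nil (j x t : ℕ) : sM j (([] : List ℕ), x) t = ([], x) := by
  induction t with
  | zero => rfl
  | succ t ih =>
    show stM j (sM j ([], x) t) = ([], x)
    rw [ih]
    rfl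

theorem F_succ (j m : ℕ) : F j (m + 1) = sb j m + m * j * F j (m - 1) := by
  rcases m with _ | m
  · simp [F, sb]
  · rw [F]
    simp [sb]

theorem bound {j m x : ℕ} (hx : x < F j (m + 1)) (h : ¬ x < sb j m) :
    1 ≤ m ∧ pI j m x < m ∧ xI j m x < F j (m - 1) := by
  rw [F_succ] at hx
  have h1 : x - sb j m < m * j * F j (m - 1) := by omega
  have h2 : 0 < m * j * F j (m - 1) := by omega
  have hm : 0 < m := Nat.pos_of_mul_pos_right (Nat.pos_of_mul_pos_right h2) |> fun h => by
    rcases Nat.eq_zero_or_pos m with h0 | h0
    · subst h0; simp at h2
    · exact h0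
  have hj : 0 < j := by
    rcases Nat.eq_zero_or_pos j with h0 | h0
    · subst h0; simp at h2
    · exact h0
  have hF : 0 < F j (m - 1) := by
    rcases Nat.eq_zero_or_pos (F j (m - 1)) with h0 | h0
    · rw [h0] at h2; simp at h2
    · exact h0
  refine ⟨hm, ?_, Nat.mod_lt _ hF⟩
  unfold pI
  rw [Nat.div_lt_iff_lt_mul (Nat.mul_pos hj hF), ← Nat.mul_assoc]
  exact h1

theorem mtl : MtlStmt := by
  intro B j
  have main : ∀ (N : ℕ) (R : List ℕ) (x T : ℕ), R.length = N → x < F j R.length → R.length ≤ T →
      mt j (R.map B) x = (List.range T).flatMap (fun t => eM B j (sM j (R, x) t)) := by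
    intro N
    induction N using Nat.strong_induction_on with
    | _ N ih =>
      intro R x T hN hx hT
      rcases R with _ | ⟨a, R⟩
      · rw [List.map_nil, mt]
        symm
        rw [List.flatMap_eq_nil_iff]
        intro t _
        rw [sM_nil]
        rfl
      · obtain ⟨T, rfl⟩ : ∃ T', T = T' + 1 := ⟨T - 1, by simp at hT; omega⟩
        have hlen : (a :: R).length = R.length + 1 := rfl
        rw [hlen] at hN hx hT
        rw [List.range_succ_eq_map, List.flatMap_cons, List.flatMap_map]
        have hsh : (fun t => eM B j (sM j (a :: R, x) (Nat.succ t))) =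
            fun t => eM B j (sM j (stM j (a :: R, x)) t) := by
          funext t
          rw [Nat.succ_eq_add_one, sM_shift]
        rw [hsh, List.map_cons, mt]
        have hz : eM B j (sM j (a :: R, x) 0) = eM B j (a :: R, x) := rfl
        rw [hz, List.length_map]
        by_cases h : x < sb j R.length
        · rw [if_pos h]
          have h1 : eM B j (a :: R, x) = selfE j (B a) := by
            unfold eM
            simp [h]
          have h2 : stM j (a :: R, x) = (R, x) := by
            unfold stM
            simp [h]
          rw [h1, h2]
          have h3 : x < F j R.length := by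
            unfold sb at h
            by_cases h4 : 2 ∣ j
            · rwa [if_pos h4] at h
            · rw [if_neg h4] at h
              omega
          rw [ih R.length (by omega) R x T rfl h3 (by omega)]
        · rw [if_neg h]
          obtain ⟨hm, hp, hxI⟩ := bound hx h
          have h1 : eM B j (a :: R, x) = pairE j (rI j R.length x) (B a)
              (B (R.getD (pI j R.length x) 0)) := by
            unfold eM
            simp [h]
          have h2 : stM j (a :: R, x) = (R.eraseIdx (pI j R.length x), xI j R.length x) := by
            unfold stM
            simp [h]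
          have h3 : (R.map B).getD (pI j R.length x) (0, 1, 1) =
              B (R.getD (pI j R.length x) 0) := by
            rw [List.getD_eq_getElem _ _ (by rw [List.length_map]; exact hp),
              List.getD_eq_getElem _ _ hp, List.getElem_map]
          have h4 : (R.map B).eraseIdx (pI j R.length x) =
              (R.eraseIdx (pI j R.length x)).map B := by
            rw [List.eraseIdx_map]
          have hl : (R.eraseIdx (pI j R.length x)).length = R.length - 1 :=
            List.length_eraseIdx_of_lt hp
          rw [h1, h2, h3, h4, ih (R.length - 1) (by omega) _ _ T hl (by rw [hl]; exact hxI)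
            (by rw [hl]; omega)]
  intro R x T hx hT
  exact main R.length R x T rfl hx hT

end Pool.Agent.UMG.C.H10
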